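import Mathlib

set_option autoImplicit false

/-!
# Few integer points on a flat hyperbola

The number of integers `1 ≤ y < 2 ^ J` for which `A y ^ 2 - 8 y + c` is a square is at most `2 g J`
if `4 c ^ 2 ≤ g ^ 4 A`.
-/

namespace Pool.Agent.Q38.S2

/-- the points -/
def OnConic (A c y w : ℕ) : Prop := w ^ 2 + 8 * y = A * y ^ 2 + c

theorem le_of_sq {a b : ℝ} (hb : 0 ≤ b) (h : a ^ 2 ≤ b ^ 2) : a ≤ b :=
  (abs_le_of_sq_le_sq' h hb).2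

theorem collinear_false {A c y₁ y₂ y₃ w₁ w₂ w₃ : ℝ} (h12 : y₁ < y₂) (h23 : y₂ < y₃)
    (hAc : 16 < A * c)
    (e1 : w₁ ^ 2 + 8 * y₁ = A * y₁ ^ 2 + c) (e2 : w₂ ^ 2 + 8 * y₂ = A * y₂ ^ 2 + c)
    (e3 : w₃ ^ 2 + 8 * y₃ = A * y₃ ^ 2 + c)
    (h0 : (y₂ - y₁) * (w₃ - w₁) - (w₂ - w₁) * (y₃ - y₁) = 0) : False := by
  have h31 : y₃ - y₁ ≠ 0 := by
    have : 0 < y₃ - y₁ := by linarith
    exact this.ne'
  obtain ⟨m, hm⟩ : ∃ m : ℝ, w₃ - w₁ = m * (y₃ - y₁) := ⟨(w₃ - w₁) / (y₃ - y₁), by field_simp⟩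
  obtain ⟨q, hq⟩ : ∃ q : ℝ, w₁ = m * y₁ + q := ⟨w₁ - m * y₁, by ring⟩
  have hw3 : w₃ = m * y₃ + q := by linarith
  have hw2 : w₂ = m * y₂ + q := by
    have h1 : (y₃ - y₁) * (w₂ - w₁ - m * (y₂ - y₁)) = 0 := by
      rw [hm] at h0
      linear_combination -h0
    have h2 := (mul_eq_zero.mp h1).resolve_left h31
    linarith
  rw [hq] at e1
  rw [hw2] at e2
  rw [hw3] at e3
  have k1 : (y₂ - y₁) * ((m ^ 2 - A) * (y₂ + y₁) + (2 * m * q + 8)) = 0 := by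
    linear_combination e2 - e1
  have k2 : (y₃ - y₁) * ((m ^ 2 - A) * (y₃ + y₁) + (2 * m * q + 8)) = 0 := by
    linear_combination e3 - e1
  have k1' := (mul_eq_zero.mp k1).resolve_left (by linarith)
  have k2' := (mul_eq_zero.mp k2).resolve_left h31
  have k3 : (m ^ 2 - A) * (y₃ - y₂) = 0 := by linear_combination k2' - k1'
  have k4 : m ^ 2 - A = 0 := (mul_eq_zero.mp k3).resolve_right (by linarith)
  have k5 : 2 * m * q + 8 = 0 := by rw [k4] at k1'; linarith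
  have k6 : q ^ 2 - c = 0 := by linear_combination e1 - y₁ ^ 2 * k4 - y₁ * k5
  have k7 : (m * q) ^ 2 = 16 := by
    have : m * q = -4 := by linarith
    rw [this]; norm_num
  have k8 : (m * q) ^ 2 = A * c := by
    rw [mul_pow]
    have h1 : m ^ 2 = A := by linarith
    have h2 : q ^ 2 = c := by linarith
    rw [h1, h2]
  linarith

theorem z_bound {α Γ Y δ u₁ u₂ u₃ w₁ w₂ w₃ r : ℝ} (hα : 0 < α) (hΓ : 0 < Γ) (hY : 0 < Y)
    (h1 : α * Y / 2 ≤ u₁) (h12 : u₁ < u₂) (h23 : u₂ < u₃) (hu : u₃ - u₁ = α * δ)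
    (hw1 : 0 ≤ w₁) (hw2 : 0 ≤ w₂) (hw3 : 0 ≤ w₃) (q1 : w₁ ^ 2 = u₁ ^ 2 + Γ)
    (q2 : w₂ ^ 2 = u₂ ^ 2 + Γ) (q3 : w₃ ^ 2 = u₃ ^ 2 + Γ) (hr : 0 ≤ r) (hrδ : r ≤ δ) :
    |((w₁ - u₁) - (w₂ - u₂)) * δ - ((w₁ - u₁) - (w₃ - u₃)) * r| * (α * Y ^ 2) ≤
      2 * Γ * δ ^ 2 := by
  have hαY : 0 < α * Y / 2 := by positivity
  have hδ : 0 ≤ δ := by linarith
  have hwu1 : u₁ ≤ w₁ := le_of_sq hw1 (by linarith)
  have hwu2 : u₂ ≤ w₂ := le_of_sq hw2 (by linarith)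
  have hwu3 : u₃ ≤ w₃ := le_of_sq hw3 (by linarith)
  have hw12 : w₁ ≤ w₂ := le_of_sq hw2 (by
    rw [q1, q2]
    have : u₁ ^ 2 ≤ u₂ ^ 2 := pow_le_pow_left₀ (by linarith) h12.le 2
    linarith)
  have hw23 : w₂ ≤ w₃ := le_of_sq hw3 (by
    rw [q2, q3]
    have : u₂ ^ 2 ≤ u₃ ^ 2 := pow_le_pow_left₀ (by linarith) h23.le 2
    linarith)
  have hs1 : 0 < w₁ + u₁ := by linarith
  have hs2 : 0 < w₂ + u₂ := by linarith
  have hs3 : 0 < w₃ + u₃ := by linarith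
  have p1 : (w₁ - u₁) * (w₁ + u₁) = Γ := by linear_combination q1
  have p2 : (w₂ - u₂) * (w₂ + u₂) = Γ := by linear_combination q2
  have p3 : (w₃ - u₃) * (w₃ + u₃) = Γ := by linear_combination q3
  obtain ⟨z₁, hz1⟩ : ∃ z, z = w₁ - u₁ := ⟨_, rfl⟩
  obtain ⟨z₂, hz2⟩ : ∃ z, z = w₂ - u₂ := ⟨_, rfl⟩
  obtain ⟨z₃, hz3⟩ : ∃ z, z = w₃ - u₃ := ⟨_, rfl⟩
  rw [← hz1] at p1 ⊢
  rw [← hz2] at p2 ⊢
  rw [← hz3] at p3 ⊢
  have hz10 : 0 < z₁ := (mul_pos_iff_of_pos_right hs1).mp (by rw [p1]; exact hΓ)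
  have hz20 : 0 < z₂ := (mul_pos_iff_of_pos_right hs2).mp (by rw [p2]; exact hΓ)
  have hz30 : 0 < z₃ := (mul_pos_iff_of_pos_right hs3).mp (by rw [p3]; exact hΓ)
  have hz12 : z₂ ≤ z₁ := by
    by_contra h
    push Not at h
    have := mul_lt_mul h (show w₁ + u₁ ≤ w₂ + u₂ by linarith) hs1 hz20.le
    linarith
  have hz23 : z₃ ≤ z₂ := by
    by_contra h
    push Not at h
    have := mul_lt_mul h (show w₂ + u₂ ≤ w₃ + u₃ by linarith) hs2 hz30.le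
    linarith
  have hzn : 0 ≤ z₁ - z₃ := by linarith
  have hzz : (z₁ - z₃) * (α * Y ^ 2) ≤ 2 * Γ * δ := by
    have hprod : (z₁ - z₃) * ((w₁ + u₁) * (w₃ + u₃)) = Γ * ((w₃ + u₃) - (w₁ + u₁)) := by
      linear_combination (w₃ + u₃) * p1 - (w₁ + u₁) * p3
    have hdiff : (w₃ + u₃) - (w₁ + u₁) ≤ 2 * (α * δ) := by linarith
    have hlow : (α * Y) * (α * Y) ≤ (w₁ + u₁) * (w₃ + u₃) := by
      apply mul_le_mul (by linarith) (by linarith) (by positivity) (by linarith)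
    have h3 : (z₁ - z₃) * ((α * Y) * (α * Y)) ≤ Γ * (2 * (α * δ)) := by
      calc (z₁ - z₃) * ((α * Y) * (α * Y)) ≤ (z₁ - z₃) * ((w₁ + u₁) * (w₃ + u₃)) := by
            gcongr
        _ = Γ * ((w₃ + u₃) - (w₁ + u₁)) := hprod
        _ ≤ Γ * (2 * (α * δ)) := by gcongr
    have h4 : α * ((z₁ - z₃) * (α * Y ^ 2)) ≤ α * (2 * Γ * δ) := by
      calc α * ((z₁ - z₃) * (α * Y ^ 2)) = (z₁ - z₃) * ((α * Y) * (α * Y)) := by ring
        _ ≤ _ := h3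
        _ = _ := by ring
    exact le_of_mul_le_mul_left h4 hα
  have hdetle : |(z₁ - z₂) * δ - (z₁ - z₃) * r| ≤ (z₁ - z₃) * δ := by
    rw [abs_le]
    have b1 : 0 ≤ (z₁ - z₂) * δ := mul_nonneg (by linarith) hδ
    have b2 : 0 ≤ (z₁ - z₃) * r := mul_nonneg (by linarith) hr
    have b3 : (z₁ - z₂) * δ ≤ (z₁ - z₃) * δ := mul_le_mul_of_nonneg_right (by linarith) hδ
    have b4 : (z₁ - z₃) * r ≤ (z₁ - z₃) * δ := mul_le_mul_of_nonneg_left hrδ hzn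
    constructor <;> linarith
  calc |(z₁ - z₂) * δ - (z₁ - z₃) * r| * (α * Y ^ 2)
      ≤ ((z₁ - z₃) * δ) * (α * Y ^ 2) := by gcongr
    _ = ((z₁ - z₃) * (α * Y ^ 2)) * δ := by ring
    _ ≤ (2 * Γ * δ) * δ := by gcongr
    _ = 2 * Γ * δ ^ 2 := by ring

theorem gap {A c g Y y₁ y₂ y₃ w₁ w₂ w₃ : ℕ} (hA : 8 ≤ A) (hAc : 16 < A * c)
    (hg : 4 * c ^ 2 ≤ g ^ 4 * A) (hY : 1 ≤ Y) (h1 : Y ≤ y₁) (h12 : y₁ < y₂) (h23 : y₂ < y₃)
    (e1 : OnConic A c y₁ w₁) (e2 : OnConic A c y₂ w₂) (e3 : OnConic A c y₃ w₃) :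
    Y ≤ g * (y₃ - y₁) := by
  unfold OnConic at e1 e2 e3
  have hAr : (8 : ℝ) ≤ A := by exact_mod_cast hA
  have hYr : (1 : ℝ) ≤ Y := by exact_mod_cast hY
  have h1r : (Y : ℝ) ≤ y₁ := by exact_mod_cast h1
  have h12r : (y₁ : ℝ) < y₂ := by exact_mod_cast h12
  have h23r : (y₂ : ℝ) < y₃ := by exact_mod_cast h23
  have hAcr : (16 : ℝ) < A * c := by exact_mod_cast hAc
  have hgr : 4 * (c : ℝ) ^ 2 ≤ (g : ℝ) ^ 4 * A := by exact_mod_cast hg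
  have e1r : (w₁ : ℝ) ^ 2 + 8 * y₁ = A * (y₁ : ℝ) ^ 2 + c := by exact_mod_cast e1
  have e2r : (w₂ : ℝ) ^ 2 + 8 * y₂ = A * (y₂ : ℝ) ^ 2 + c := by exact_mod_cast e2
  have e3r : (w₃ : ℝ) ^ 2 + 8 * y₃ = A * (y₃ : ℝ) ^ 2 + c := by exact_mod_cast e3
  obtain ⟨α, hα⟩ : ∃ α : ℝ, α = Real.sqrt A := ⟨_, rfl⟩
  have hα2 : α ^ 2 = A := by rw [hα]; exact Real.sq_sqrt (by linarith)
  have hα0 : 0 < α := by rw [hα]; exact Real.sqrt_pos.mpr (by linarith)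
  have hc0 : (0 : ℝ) ≤ c := Nat.cast_nonneg c
  have hg0 : (0 : ℝ) ≤ g := Nat.cast_nonneg g
  have h2c : 2 * (c : ℝ) ≤ (g : ℝ) ^ 2 * α := by
    apply le_of_sq (by positivity)
    calc (2 * (c : ℝ)) ^ 2 = 4 * (c : ℝ) ^ 2 := by ring
      _ ≤ (g : ℝ) ^ 4 * A := hgr
      _ = ((g : ℝ) ^ 2 * α) ^ 2 := by rw [← hα2]; ring
  -- the determinant
  obtain ⟨det, hdet⟩ : ∃ det : ℤ,
    det = ((y₂ : ℤ) - y₁) * ((w₃ : ℤ) - w₁) - ((w₂ : ℤ) - w₁) * ((y₃ : ℤ) - y₁) := ⟨_, rfl⟩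
  have hdetr : (det : ℝ) = ((y₂ : ℝ) - y₁) * ((w₃ : ℝ) - w₁) - ((w₂ : ℝ) - w₁) * ((y₃ : ℝ) - y₁) := by
    rw [hdet]
    push_cast
    ring
  have hdet0 : det ≠ 0 := by
    intro h0
    rw [h0, Int.cast_zero] at hdetr
    exact collinear_false h12r h23r hAcr e1r e2r e3r hdetr.symm
  have hdet1 : (1 : ℝ) ≤ |(det : ℝ)| := by
    have := Int.one_le_abs hdet0
    exact_mod_cast this
  obtain ⟨Γ, hΓ⟩ : ∃ Γ : ℝ, Γ = (c : ℝ) - 16 / A := ⟨_, rfl⟩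
  have hΓ0 : 0 < Γ := by
    rw [hΓ, sub_pos, div_lt_iff₀ (by linarith)]
    linarith
  have hΓc : Γ ≤ c := by
    rw [hΓ]
    have : (0 : ℝ) ≤ 16 / A := by positivity
    linarith
  have husq : ∀ y w : ℝ, w ^ 2 + 8 * y = A * y ^ 2 + c → w ^ 2 = (α * y - 4 / α) ^ 2 + Γ := by
    intro y w h
    have h1 : (α * y - 4 / α) ^ 2 = α ^ 2 * y ^ 2 - 8 * y + 16 / α ^ 2 := by
      field_simp
      ring
    rw [h1, hα2, hΓ]
    linarith
  have hα4 : 4 / α ≤ α / 2 := by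
    rw [div_le_div_iff₀ hα0 (by norm_num)]
    nlinarith
  have hu1 : α * Y / 2 ≤ α * y₁ - 4 / α := by
    have h1 : α * Y ≤ α * y₁ := by gcongr
    have h2 : α * 1 ≤ α * Y := by gcongr
    linarith
  have hu12 : α * y₁ - 4 / α < α * y₂ - 4 / α := by
    have : α * y₁ < α * y₂ := mul_lt_mul_of_pos_left h12r hα0
    linarith
  have hu23 : α * y₂ - 4 / α < α * y₃ - 4 / α := by
    have : α * y₂ < α * y₃ := mul_lt_mul_of_pos_left h23r hα0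
    linarith
  have hz := z_bound (δ := (y₃ : ℝ) - y₁) (r := (y₂ : ℝ) - y₁) hα0 hΓ0 (by linarith) hu1 hu12 hu23
    (by ring) (Nat.cast_nonneg _) (Nat.cast_nonneg _) (Nat.cast_nonneg _)
    (husq _ _ e1r) (husq _ _ e2r) (husq _ _ e3r) (by linarith) (by linarith)
  have hdetz : (det : ℝ) = (((w₁ : ℝ) - (α * y₁ - 4 / α)) - (w₂ - (α * y₂ - 4 / α))) *
      ((y₃ : ℝ) - y₁) - ((w₁ - (α * y₁ - 4 / α)) - (w₃ - (α * y₃ - 4 / α))) * ((y₂ : ℝ) - y₁) := by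
    rw [hdetr]
    ring
  rw [← hdetz] at hz
  have hfin : (Y : ℝ) ≤ g * (y₃ - y₁) := by
    have h31 : (0 : ℝ) ≤ (y₃ : ℝ) - y₁ := by linarith
    apply le_of_sq (by positivity)
    have a2 : α * (Y : ℝ) ^ 2 ≤ α * ((g : ℝ) * (y₃ - y₁)) ^ 2 := by
      calc α * (Y : ℝ) ^ 2 = 1 * (α * Y ^ 2) := by ring
        _ ≤ |(det : ℝ)| * (α * Y ^ 2) := by gcongr
        _ ≤ 2 * Γ * ((y₃ : ℝ) - y₁) ^ 2 := hz
        _ ≤ ((g : ℝ) ^ 2 * α) * ((y₃ : ℝ) - y₁) ^ 2 :=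
            mul_le_mul_of_nonneg_right (by linarith) (sq_nonneg _)
        _ = α * ((g : ℝ) * (y₃ - y₁)) ^ 2 := by ring
    exact le_of_mul_le_mul_left a2 hα0
  have hsub : ((y₃ - y₁ : ℕ) : ℝ) = (y₃ : ℝ) - y₁ := by
    rw [Nat.cast_sub (by omega)]
  rw [← hsub] at hfin
  exact_mod_cast hfin

open Classical in
/-- the points with `1 ≤ y < 2 ^ J` -/
noncomputable def conicSet (A c J : ℕ) : Finset ℕ :=
  (Finset.range (2 ^ J)).filter (fun y => 1 ≤ y ∧ ∃ w, OnConic A c y w)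

open Classical in
theorem block {A c g Y : ℕ} (hA : 8 ≤ A) (hAc : 16 < A * c) (hg1 : 1 ≤ g)
    (hg : 4 * c ^ 2 ≤ g ^ 4 * A) (hY : 1 ≤ Y) :
    ((Finset.Ico Y (2 * Y)).filter (fun y => ∃ w, OnConic A c y w)).card ≤ 2 * g := by
  obtain ⟨F, hF⟩ : ∃ F, F = (Finset.Ico Y (2 * Y)).filter (fun y => ∃ w, OnConic A c y w) :=
    ⟨_, rfl⟩
  rw [← hF]
  have hmaps : ∀ y ∈ F, (fun y => g * (y - Y) / Y) y ∈ Finset.range g := by
    intro y hy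
    rw [hF, Finset.mem_filter, Finset.mem_Ico] at hy
    simp only [Finset.mem_range]
    rw [Nat.div_lt_iff_lt_mul (by omega)]
    exact Nat.mul_lt_mul_of_pos_left (by omega) (by omega)
  have h := Finset.card_le_mul_card_image_of_maps_to hmaps 2 (by
    intro j _
    by_contra hcon
    push Not at hcon
    obtain ⟨G, hG⟩ : ∃ G, G = F.filter (fun y => g * (y - Y) / Y = j) := ⟨_, rfl⟩
    rw [← hG] at hcon
    have hmem : ∀ y ∈ G, Y ≤ y ∧ (∃ w, OnConic A c y w) ∧ g * (y - Y) / Y = j := by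
      intro y hy
      rw [hG, Finset.mem_filter, hF, Finset.mem_filter, Finset.mem_Ico] at hy
      exact ⟨hy.1.1.1, hy.1.2, hy.2⟩
    have hne : G.Nonempty := Finset.card_pos.mp (by omega)
    have hmin := G.min'_mem hne
    have hmax := G.max'_mem hne
    have hrest : (G \ {G.min' hne, G.max' hne}).Nonempty := by
      rw [← Finset.card_pos]
      have h1 := Finset.le_card_sdiff {G.min' hne, G.max' hne} G
      have h2 : ({G.min' hne, G.max' hne} : Finset ℕ).card ≤ 2 := Finset.card_le_two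
      omega
    obtain ⟨y, hy⟩ := hrest
    rw [Finset.mem_sdiff, Finset.mem_insert, Finset.mem_singleton, not_or] at hy
    obtain ⟨hyG, hy1, hy2⟩ := hy
    have l1 : G.min' hne < y := lt_of_le_of_ne (G.min'_le y hyG) (Ne.symm hy1)
    have l2 : y < G.max' hne := lt_of_le_of_ne (G.le_max' y hyG) hy2
    obtain ⟨a1, ⟨w1, c1⟩, d1⟩ := hmem _ hmin
    obtain ⟨a2, ⟨w2, c2⟩, d2⟩ := hmem _ hmax
    obtain ⟨a3, ⟨w3, c3⟩, -⟩ := hmem _ hyG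
    have hgap := gap hA hAc hg hY a1 l1 l2 c1 c3 c2
    have s1 : j * Y ≤ g * (G.min' hne - Y) := by
      rw [← d1]; exact Nat.div_mul_le_self _ _
    have s2 : g * (G.max' hne - Y) < (j + 1) * Y := by
      have := Nat.lt_div_mul_add (a := g * (G.max' hne - Y)) (b := Y) (by omega)
      rw [d2] at this
      linarith
    have s3 : g * (G.max' hne - Y) = g * (G.max' hne - G.min' hne) + g * (G.min' hne - Y) := by
      rw [← Nat.mul_add]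
      congr 1
      omega
    have s4 : (j + 1) * Y = j * Y + Y := by ring
    omega)
  rw [Finset.card_range] at h
  exact h

open Classical in
/-- **Few integer points on a flat hyperbola.** -/
theorem conicSet_card {A c g J : ℕ} (hA : 8 ≤ A) (hAc : 16 < A * c) (hg1 : 1 ≤ g)
    (hg : 4 * c ^ 2 ≤ g ^ 4 * A) : (conicSet A c J).card ≤ J * (2 * g) := by
  have hsub : conicSet A c J ⊆ (Finset.range J).biUnion (fun j =>
      (Finset.Ico (2 ^ j) (2 * 2 ^ j)).filter (fun y => ∃ w, OnConic A c y w)) := by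
    intro y hy
    unfold conicSet at hy
    rw [Finset.mem_filter, Finset.mem_range] at hy
    rw [Finset.mem_biUnion]
    refine ⟨Nat.log 2 y, ?_, ?_⟩
    · rw [Finset.mem_range]
      exact Nat.log_lt_of_lt_pow (by omega) hy.1
    · rw [Finset.mem_filter, Finset.mem_Ico]
      refine ⟨⟨Nat.pow_log_le_self 2 (by omega), ?_⟩, hy.2.2⟩
      have := Nat.lt_pow_succ_log_self (b := 2) (by norm_num) y
      rw [pow_succ] at this
      omega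
  refine (Finset.card_le_card hsub).trans ?_
  refine (Finset.card_biUnion_le_card_mul _ _ (2 * g) ?_).trans ?_
  · intro j _
    exact block hA hAc hg1 hg Nat.one_le_two_pow
  · rw [Finset.card_range]

end Pool.Agent.Q38.S2
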