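import Mathlib
import Pool.Agent.Q38.S2.Conic

set_option autoImplicit false

/-!
# The equation `σ₂ = σₙ` for tuples with `N` ones, `k` entries `a` and `l` entries `b`
-/

namespace Pool.Agent.Q38.S2

/-- the equation `2 σ₂ = 2 σₙ` for `N` ones, `k` entries `a` and `l` entries `b` -/
def Eq2 (N k l a b : ℕ) : Prop :=
  (N + k * a + l * b) ^ 2 + k * a + l * b =
    2 * (a ^ k * b ^ l) + (N + k * a + l * b) + k * a ^ 2 + l * b ^ 2

theorem Eq2.symm {N k l a b : ℕ} (h : Eq2 N k l a b) : Eq2 N l k b a := by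
  unfold Eq2 at h ⊢
  rw [mul_comm (b ^ l) (a ^ k)]
  have e : N + l * b + k * a = N + k * a + l * b := by ring
  rw [e]
  linarith

theorem unique_N {N N' k l a b : ℕ} (hN : 1 ≤ N) (hN' : 1 ≤ N') (h : Eq2 N k l a b)
    (h' : Eq2 N' k l a b) : N = N' := by
  unfold Eq2 at h h'
  have key : ∀ s s' : ℕ, 1 ≤ s → s < s' → s ^ 2 + s' < s' ^ 2 + s := by
    intro s s' h1 h2
    obtain ⟨d, rfl⟩ := Nat.exists_eq_add_of_lt h2
    nlinarith
  rcases Nat.lt_trichotomy N N' with hlt | heq | hlt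
  · have := key (N + k * a + l * b) (N' + k * a + l * b) (by omega) (by omega)
    omega
  · exact heq
  · have := key (N' + k * a + l * b) (N + k * a + l * b) (by omega) (by omega)
    omega

theorem twoP_le {N k l a b : ℕ} (h : Eq2 N k l a b) :
    2 * (a ^ k * b ^ l) ≤ (N + k * a + l * b) ^ 2 := by
  unfold Eq2 at h
  omega

theorem root3 {a R : ℕ} (h : a ^ 3 ≤ 8 * R ^ 120) : a ≤ 2 * R ^ 40 := by
  by_contra hcon
  push Not at hcon
  have h1 := Nat.pow_lt_pow_left hcon (show 3 ≠ 0 by norm_num)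
  have h2 : (2 * R ^ 40) ^ 3 = 8 * R ^ 120 := by ring
  omega

theorem root2 {a c R m : ℕ} (h : a ^ 2 ≤ c ^ 2 * R ^ (2 * m)) : a ≤ c * R ^ m := by
  by_contra hcon
  push Not at hcon
  have h1 := Nat.pow_lt_pow_left hcon (show 2 ≠ 0 by norm_num)
  have h2 : (c * R ^ m) ^ 2 = c ^ 2 * R ^ (2 * m) := by
    rw [mul_pow, ← pow_mul, mul_comm m 2]
  omega

/-- `2 k³ < R^60` type facts -/
theorem small_lt {k R : ℕ} (hR : 100 ≤ R) (hk : k ≤ R) : 100 * k ^ 3 < R ^ 60 := by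
  have h1 : k ^ 3 ≤ R ^ 3 := Nat.pow_le_pow_left hk 3
  have h3 : 0 < R ^ 3 := by positivity
  calc 100 * k ^ 3 ≤ R * R ^ 3 := Nat.mul_le_mul hR h1
    _ < R * R ^ 3 * R ^ 56 := by
      have h2 : 1 < R ^ 56 := Nat.one_lt_pow (by norm_num) (by omega)
      have h4 : 0 < R * R ^ 3 := by positivity
      nlinarith
    _ = R ^ 60 := by ring

section

variable {R N k l a b : ℕ}

/-- one value only -/
theorem type0 (hR : 100 ≤ R) (hN : 1 ≤ N) (hNR : N ≤ R ^ 60) (hk : k ≤ R) (ha : 2 ≤ a)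
    (hn : 3 ≤ N + k) (h : Eq2 N k 0 a b) : a ≤ 2 * R ^ 40 := by
  rcases Nat.lt_or_ge k 3 with hk3 | hk3
  · exfalso
    unfold Eq2 at h
    interval_cases k
    · simp at h
      nlinarith
    · simp at h
      nlinarith
    · simp at h
      nlinarith
  · have hP := twoP_le h
    have h3 : a ^ 3 ≤ a ^ k := Nat.pow_le_pow_right (by omega) hk3
    simp only [pow_zero, mul_one, zero_mul, add_zero] at hP
    rcases Nat.lt_or_ge (R ^ 60) (k * a) with hka | hka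
    · exfalso
      have h4 : (N + k * a) ^ 2 ≤ (2 * (k * a)) ^ 2 := Nat.pow_le_pow_left (by omega) 2
      have h5 : a ^ 2 * a ≤ a ^ 2 * (2 * k ^ 2) := by nlinarith
      have h6 : a ≤ 2 * k ^ 2 := Nat.le_of_mul_le_mul_left h5 (by positivity)
      have h7 : k * a ≤ k * (2 * k ^ 2) := Nat.mul_le_mul_left k h6
      have h8 := small_lt hR hk
      have h9 : k * (2 * k ^ 2) = 2 * k ^ 3 := by ring
      omega
    · apply root3
      have h4 : (N + k * a) ^ 2 ≤ (2 * R ^ 60) ^ 2 := Nat.pow_le_pow_left (by omega) 2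
      have h5 : (2 * R ^ 60) ^ 2 = 4 * R ^ 120 := by ring
      omega

/-- both multiplicities at least three -/
theorem type33 (hR : 100 ≤ R) (hNR : N ≤ R ^ 60) (hk : k ≤ R) (hl : l ≤ R)
    (ha : 2 ≤ a) (hb : 2 ≤ b) (hk3 : 3 ≤ k) (hl3 : 3 ≤ l) (h : Eq2 N k l a b) :
    a * b ≤ 2 * R ^ 40 := by
  have hP := twoP_le h
  have h3 : (a * b) ^ 3 ≤ a ^ k * b ^ l := by
    rw [mul_pow]
    exact Nat.mul_le_mul (Nat.pow_le_pow_right (by omega) hk3)
      (Nat.pow_le_pow_right (by omega) hl3)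
  have hab : a + b ≤ a * b := by nlinarith
  have hs : k * a + l * b ≤ R * (a * b) := by
    have h1 : k * a ≤ R * a := Nat.mul_le_mul_right a hk
    have h2 : l * b ≤ R * b := Nat.mul_le_mul_right b hl
    have h4 : R * (a + b) ≤ R * (a * b) := Nat.mul_le_mul_left R hab
    nlinarith
  rcases Nat.lt_or_ge (R ^ 60) (R * (a * b)) with hka | hka
  · exfalso
    have h4 : (N + k * a + l * b) ^ 2 ≤ (2 * (R * (a * b))) ^ 2 :=
      Nat.pow_le_pow_left (by omega) 2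
    have h5 : (a * b) ^ 2 * (a * b) ≤ (a * b) ^ 2 * (2 * R ^ 2) := by nlinarith
    have h6 : a * b ≤ 2 * R ^ 2 := Nat.le_of_mul_le_mul_left h5 (by positivity)
    have h7 : R * (a * b) ≤ R * (2 * R ^ 2) := Nat.mul_le_mul_left R h6
    have h8 := small_lt hR le_rfl
    have h9 : R * (2 * R ^ 2) = 2 * R ^ 3 := by ring
    omega
  · apply root3
    have h4 : (N + k * a + l * b) ^ 2 ≤ (2 * R ^ 60) ^ 2 := Nat.pow_le_pow_left (by omega) 2
    have h5 : (2 * R ^ 60) ^ 2 = 4 * R ^ 120 := by ring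
    omega

theorem eq_two (h : Eq2 N k 2 a b) :
    (2 * (N + k * a + 2 * b) - 1) ^ 2 + 8 * b =
      8 * (a ^ k + 1) * b ^ 2 + (4 * k * (a ^ 2 - a) + 1) ∨ N + k * a + 2 * b = 0 := by
  rcases Nat.eq_zero_or_pos (N + k * a + 2 * b) with h0 | h0
  · exact Or.inr h0
  · left
    unfold Eq2 at h
    have haa : a ≤ a ^ 2 := Nat.le_self_pow (by norm_num) a
    zify [haa, show 1 ≤ 2 * (N + k * a + 2 * b) by omega]
    zify at h
    linear_combination 4 * h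

/-- multiplicities `k ≥ 3` and `2` -/
theorem type32 (hR : 100 ≤ R) (hNR : N ≤ R ^ 60) (hk : k ≤ R)
    (ha : 2 ≤ a) (hb : 2 ≤ b) (hk3 : 3 ≤ k) (h : Eq2 N k 2 a b) :
    a ^ k * b ^ 2 ≤ 8 * R ^ 120 := by
  have hP := twoP_le h
  have h3 : a ^ 3 ≤ a ^ k := Nat.pow_le_pow_right (by omega) hk3
  have h8 : 8 ≤ a ^ k := le_trans (by
    calc 8 = 2 ^ 3 := by norm_num
      _ ≤ a ^ 3 := Nat.pow_le_pow_left ha 3) h3
  -- `2 b ≤ N + k a`
  have h2b : 2 * b ≤ N + k * a := by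
    by_contra hcon
    push Not at hcon
    have h1 : (N + k * a + 2 * b) ^ 2 ≤ (4 * b) ^ 2 := Nat.pow_le_pow_left (by omega) 2
    unfold Eq2 at h
    have h2 : 8 * b ^ 2 ≤ a ^ k * b ^ 2 := Nat.mul_le_mul_right _ h8
    have h4 : k * a ≤ k * a ^ 2 := Nat.mul_le_mul_left k (Nat.le_self_pow (by norm_num) a)
    nlinarith
  rcases Nat.lt_or_ge (R ^ 60) (k * a) with hka | hka
  · exfalso
    have h4 : (N + k * a + 2 * b) ^ 2 ≤ (4 * (k * a)) ^ 2 := Nat.pow_le_pow_left (by omega) 2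
    have h5 : a ^ 3 * b ^ 2 ≤ a ^ k * b ^ 2 := Nat.mul_le_mul_right _ h3
    have h5' : 4 ≤ b ^ 2 := by nlinarith
    have h5'' : a ^ 3 * 4 ≤ a ^ 3 * b ^ 2 := Nat.mul_le_mul_left _ h5'
    have h6 : a ^ 2 * a ≤ a ^ 2 * (2 * k ^ 2) := by nlinarith
    have h7 : a ≤ 2 * k ^ 2 := Nat.le_of_mul_le_mul_left h6 (by positivity)
    have h9 : k * a ≤ k * (2 * k ^ 2) := Nat.mul_le_mul_left k h7
    have h10 := small_lt hR hk
    have h11 : k * (2 * k ^ 2) = 2 * k ^ 3 := by ring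
    omega
  · have h4 : (N + k * a + 2 * b) ^ 2 ≤ (4 * R ^ 60) ^ 2 := Nat.pow_le_pow_left (by omega) 2
    have h5 : (4 * R ^ 60) ^ 2 = 16 * R ^ 120 := by ring
    omega

/-- multiplicities `2` and `2` -/
theorem type22 (hR : 100 ≤ R) (hNR : N ≤ R ^ 60)
    (ha : 2 ≤ a) (hab : a ≤ b) (h : Eq2 N 2 2 a b) :
    a * b ≤ 5 * R ^ 60 := by
  have hP := twoP_le h
  have h3b : b ≤ N + 2 * a := by
    by_contra hcon
    push Not at hcon
    have h1 : (N + 2 * a + 2 * b) ^ 2 ≤ (3 * b) ^ 2 := Nat.pow_le_pow_left (by omega) 2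
    unfold Eq2 at h
    have h2 : 4 * b ^ 2 ≤ a ^ 2 * b ^ 2 := Nat.mul_le_mul_right _ (by nlinarith)
    have h4 : 2 * a ≤ 2 * a ^ 2 := Nat.mul_le_mul_left 2 (Nat.le_self_pow (by norm_num) a)
    nlinarith
  rcases Nat.lt_or_ge (R ^ 60) (2 * a) with hka | hka
  · exfalso
    have h4 : (N + 2 * a + 2 * b) ^ 2 ≤ (12 * a) ^ 2 := Nat.pow_le_pow_left (by omega) 2
    have h5 : a ^ 2 * b ^ 2 ≤ a ^ 2 * 72 := by nlinarith
    have h6 : b ^ 2 ≤ 72 := Nat.le_of_mul_le_mul_left h5 (by positivity)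
    have h7 : b ≤ 9 := by nlinarith
    have h10 := small_lt hR (show 1 ≤ R by omega)
    omega
  · have h4 : (N + 2 * a + 2 * b) ^ 2 ≤ (6 * R ^ 60) ^ 2 := Nat.pow_le_pow_left (by omega) 2
    have h5 : (6 * R ^ 60) ^ 2 = 36 * R ^ 120 := by ring
    have h6 : (a * b) ^ 2 ≤ 5 ^ 2 * R ^ (2 * 60) := by
      rw [mul_pow]
      norm_num
      omega
    exact root2 h6

/-- multiplicity one: the divisor -/
theorem type1 (hN : 1 ≤ N) (ha : 2 ≤ a) (hb : 2 ≤ b) (hk2 : 1 ≤ k)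
    (h : Eq2 N k 1 a b) :
    ∃ D : ℕ, 0 < D ∧ N + k * a + D = a ^ k ∧ 4 * D ≤ (N + k * a) ^ 2 ∧
      2 * b * D + N + k * a ^ 2 = (N + k * a) ^ 2 ∧
      D ∣ a ^ (2 * k) + k * a - (a ^ k + k * a ^ 2) ∧ a ^ k + k * a ^ 2 < a ^ (2 * k) + k * a := by
  unfold Eq2 at h
  have haa : a ≤ a ^ 2 := Nat.le_self_pow (by norm_num) a
  have h4 : k * a ≤ k * a ^ 2 := Nat.mul_le_mul_left k haa
  have hk2' : k * a ^ 2 ≤ (k * a) ^ 2 := by
    rw [mul_pow]
    exact Nat.mul_le_mul_right _ (Nat.le_self_pow (by norm_num) k)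
  have hka : 1 ≤ k * a := Nat.one_le_iff_ne_zero.mpr (by positivity)
  -- `2 b (N + k a) < 2 b a ^ k`
  have hlt : N + k * a < a ^ k := by
    by_contra hcon
    push Not at hcon
    have h1 : b * a ^ k ≤ b * (N + k * a) := Nat.mul_le_mul_left b hcon
    nlinarith
  obtain ⟨D, hD⟩ := Nat.exists_eq_add_of_lt hlt
  have hD' : N + k * a + (D + 1) = a ^ k := by omega
  have hrel : 2 * b * (D + 1) + N + k * a ^ 2 = (N + k * a) ^ 2 := by
    have h1 : a ^ k = N + k * a + (D + 1) := hD'.symm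
    rw [h1] at h
    nlinarith
  have hfac : (a ^ k) ^ 2 + k * a = (a ^ k + k * a ^ 2) + (D + 1) * (2 * b + 2 * a ^ k - 1 - (D + 1)) := by
    have h1 : 1 + (D + 1) ≤ 2 * b + 2 * a ^ k := by omega
    have h2 : (D + 1) * (2 * b + 2 * a ^ k - 1 - (D + 1)) + (D + 1) * (1 + (D + 1)) =
        (D + 1) * (2 * b + 2 * a ^ k) := by
      rw [← Nat.mul_add]
      congr 1
      omega
    zify at h2 hrel hD' ⊢
    have h3 : (N : ℤ) = (a : ℤ) ^ k - k * a - (D + 1) := by linarith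
    rw [h3] at hrel
    nlinarith
  have hp : a ^ (2 * k) = (a ^ k) ^ 2 := by rw [← pow_mul, mul_comm]
  refine ⟨D + 1, by omega, hD', ?_, hrel, ?_, ?_⟩
  · nlinarith
  · rw [hp, hfac]
    rw [Nat.add_sub_cancel_left]
    exact dvd_mul_right _ _
  · rw [hp, hfac]
    have : 0 < (D + 1) * (2 * b + 2 * a ^ k - 1 - (D + 1)) := by
      apply Nat.mul_pos (by omega)
      omega
    omega

/-- multiplicities `k ≥ 3` and `1` -/
theorem type31 (hR : 100 ≤ R) (hN : 1 ≤ N) (hNR : N ≤ R ^ 60) (hk : k ≤ R)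
    (ha : 2 ≤ a) (hb : 2 ≤ b) (hk3 : 3 ≤ k) (h : Eq2 N k 1 a b) :
    a ≤ 2 * R ^ 40 ∧ a ^ (2 * k) ≤ 9 * R ^ 240 := by
  obtain ⟨D, hD0, hD, h4D, -⟩ := type1 hN ha hb (by omega) h
  have h3 : a ^ 3 ≤ a ^ k := Nat.pow_le_pow_right (by omega) hk3
  rcases Nat.lt_or_ge (R ^ 60) (k * a) with hka | hka
  · exfalso
    have h4 : (N + k * a) ^ 2 ≤ (2 * (k * a)) ^ 2 := Nat.pow_le_pow_left (by omega) 2
    have hk1 : k ≤ k ^ 2 := Nat.le_self_pow (by norm_num) k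
    have h5 : a ^ 3 ≤ k ^ 2 * a ^ 2 + 2 * (k * a) := by nlinarith
    have h5' : 2 * (k * a) ≤ k ^ 2 * a ^ 2 := by nlinarith
    have h6 : a ^ 2 * a ≤ a ^ 2 * (2 * k ^ 2) := by nlinarith
    have h7 : a ≤ 2 * k ^ 2 := Nat.le_of_mul_le_mul_left h6 (by positivity)
    have h9 : k * a ≤ k * (2 * k ^ 2) := Nat.mul_le_mul_left k h7
    have h10 := small_lt hR hk
    have h11 : k * (2 * k ^ 2) = 2 * k ^ 3 := by ring
    omega
  · have h4 : (N + k * a) ^ 2 ≤ (2 * R ^ 60) ^ 2 := Nat.pow_le_pow_left (by omega) 2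
    have h5 : (2 * R ^ 60) ^ 2 = 4 * R ^ 120 := by ring
    have h6 : 2 * R ^ 60 ≤ R ^ 120 := by
      have : R ^ 120 = R ^ 60 * R ^ 60 := by ring
      rw [this]
      apply Nat.mul_le_mul_right
      have := Nat.le_self_pow (show 60 ≠ 0 by norm_num) R
      omega
    have h7 : a ^ k ≤ 2 * R ^ 120 := by omega
    refine ⟨root3 (by omega), ?_⟩
    have h8 : (a ^ k) ^ 2 ≤ (2 * R ^ 120) ^ 2 := Nat.pow_le_pow_left h7 2
    have h9 : (2 * R ^ 120) ^ 2 = 4 * R ^ 240 := by ring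
    have h10 : a ^ (2 * k) = (a ^ k) ^ 2 := by rw [← pow_mul, mul_comm]
    rw [h10]
    omega

/-- multiplicities `2` and `1`, large `a` -/
theorem type21 (hR : 100 ≤ R) (hN : 1 ≤ N) (hNR : N ≤ R ^ 60)
    (ha : R ^ 48 < a) (hb : 2 ≤ b) (h : Eq2 N 2 1 a b) :
    a ≤ 3 * R ^ 60 ∧ b ≤ 4 * R ^ 24 ∧
      (2 * (N + 2 * a + b) - 1) ^ 2 + 8 * a = 8 * (b + 1) * a ^ 2 + (2 * b - 1) ^ 2 := by
  have hR48 : 100 ≤ R ^ 48 := hR.trans (Nat.le_self_pow (by norm_num) R)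
  obtain ⟨D, hD0, hD, h4D, hrel, -⟩ := type1 hN (by omega) hb (by omega) h
  refine ⟨?_, ?_, ?_⟩
  · by_contra hcon
    push Not at hcon
    have h3N : 3 * N < a := by omega
    nlinarith
  · -- `N ≤ R ^ 12 a`
    have h1 : N ≤ R ^ 12 * a := by
      calc N ≤ R ^ 60 := hNR
        _ = R ^ 12 * R ^ 48 := by ring
        _ ≤ R ^ 12 * a := Nat.mul_le_mul_left _ ha.le
    have hNa : 4 * N ≤ a ^ 2 := by
      have h2 : R ^ 48 * R ^ 48 ≤ a * a := Nat.mul_le_mul ha.le ha.le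
      have h3 : R ^ 48 * R ^ 48 = R ^ 36 * R ^ 60 := by ring
      have h4 : 100 ≤ R ^ 36 := hR.trans (Nat.le_self_pow (by norm_num) R)
      have h5 : 100 * R ^ 60 ≤ R ^ 36 * R ^ 60 := Nat.mul_le_mul_right _ h4
      nlinarith
    have hDa : a ^ 2 ≤ 2 * D := by nlinarith
    have h6 : a ^ 2 * b ≤ a ^ 2 * (R ^ 12 + 2) ^ 2 := by
      calc a ^ 2 * b ≤ (2 * D) * b := Nat.mul_le_mul_right _ hDa
        _ ≤ (N + 2 * a) ^ 2 := by nlinarith
        _ ≤ ((R ^ 12 + 2) * a) ^ 2 := Nat.pow_le_pow_left (by nlinarith) 2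
        _ = a ^ 2 * (R ^ 12 + 2) ^ 2 := by ring
    have ha0 : 0 < a := by omega
    have h7 : b ≤ (R ^ 12 + 2) ^ 2 := Nat.le_of_mul_le_mul_left h6 (by positivity)
    have h8 : R ^ 12 + 2 ≤ 2 * R ^ 12 := by
      have : 100 ≤ R ^ 12 := hR.trans (Nat.le_self_pow (by norm_num) R)
      omega
    have h9 : (R ^ 12 + 2) ^ 2 ≤ (2 * R ^ 12) ^ 2 := Nat.pow_le_pow_left h8 2
    have h10 : (2 * R ^ 12) ^ 2 = 4 * R ^ 24 := by ring
    omega
  · unfold Eq2 at h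
    zify [show 1 ≤ 2 * (N + 2 * a + b) by omega, show 1 ≤ 2 * b by omega]
    zify at h
    linear_combination 4 * h

end

end Pool.Agent.Q38.S2
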