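import Mathlib
import Pool.Agent.Q38.S2.Types
import Pool.Agent.Helper924.MW.Lower

set_option autoImplicit false

/-!
# Counting the `n` with a solution of `σ₂ = σₙ` with at most two values besides `1`
-/

namespace Pool.Agent.Q38.S2

open Finset

theorem count_le {α : Type*} (B : Finset ℕ) (C : Finset α) (r : ℕ → α → Prop)
    (h1 : ∀ n ∈ B, ∃ c ∈ C, r n c)
    (h2 : ∀ c ∈ C, ∀ n n', r n c → r n' c → n = n') : B.card ≤ C.card := by
  refine Finset.card_le_card_of_forall_subsingleton r h1 ?_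
  intro c hc n hn n' hn'
  exact h2 c hc n n' hn.2 hn'.2

/-- the solutions with prescribed multiplicities and values -/
def Sol (k l a b n : ℕ) : Prop := ∃ N, 1 ≤ N ∧ N + k + l = n ∧ Eq2 N k l a b

theorem Sol.unique {k l a b n n' : ℕ} (h : Sol k l a b n) (h' : Sol k l a b n') : n = n' := by
  obtain ⟨N, hN, rfl, e⟩ := h
  obtain ⟨N', hN', rfl, e'⟩ := h'
  rw [unique_N hN hN' e e']

open Classical in
/-- the `n ≤ R ^ 60` with a solution satisfying a condition -/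
noncomputable def bad (R : ℕ) (P : ℕ → ℕ → ℕ → ℕ → Prop) : Finset ℕ :=
  (Finset.Icc 1 (R ^ 60)).filter (fun n => ∃ k l a b : ℕ, P k l a b ∧ k ≤ R ∧ l ≤ R ∧ 2 ≤ a ∧
    2 ≤ b ∧ Sol k l a b n)

open Classical in
theorem mem_bad {R n : ℕ} {P : ℕ → ℕ → ℕ → ℕ → Prop} : n ∈ bad R P ↔
    n ≤ R ^ 60 ∧ ∃ k l a b : ℕ, P k l a b ∧ k ≤ R ∧ l ≤ R ∧ 2 ≤ a ∧
    2 ≤ b ∧ Sol k l a b n := by
  unfold bad
  rw [Finset.mem_filter, Finset.mem_Icc]
  constructor
  · rintro ⟨⟨-, h⟩, h'⟩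
    exact ⟨h, h'⟩
  · rintro ⟨h, h'⟩
    refine ⟨⟨?_, h⟩, h'⟩
    obtain ⟨k, l, a, b, -, -, -, -, -, N, hN, rfl, -⟩ := h'
    omega

/-- what we need of the large number `R` -/
structure Large (R C : ℕ) : Prop where
  hR : 100 ≤ R
  hC : 1 ≤ C
  hCR : 1000 * C ≤ R
  hpow : R ^ 200 < 2 ^ R
  hdiv : ∀ n : ℕ, n ≠ 0 → n.divisors.card ^ 240 ≤ C * n

theorem Large.tau {R C n : ℕ} (h : Large R C) (hn : n ≠ 0) (hn' : n ≤ 9 * R ^ 240) :
    n.divisors.card ≤ 9 * C * R := by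
  have h1 := h.hdiv n hn
  have h2 : n.divisors.card ^ 240 ≤ (9 * C * R) ^ 240 := by
    calc n.divisors.card ^ 240 ≤ C * n := h1
      _ ≤ C * (9 * R ^ 240) := Nat.mul_le_mul_left _ hn'
      _ = (9 * C) * R ^ 240 := by ring
      _ ≤ (9 * C) ^ 240 * R ^ 240 := by
          apply Nat.mul_le_mul_right
          exact Nat.le_self_pow (by norm_num) _
      _ = (9 * C * R) ^ 240 := by rw [mul_pow (9 * C) R 240]
  exact (Nat.pow_le_pow_iff_left (by norm_num)).mp h2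

theorem up {R m m' : ℕ} (hR : 100 ≤ R) (h : m ≤ m') : R ^ m ≤ R ^ m' :=
  Nat.pow_le_pow_right (by omega) h

theorem Large.pow61 {R C : ℕ} (h : Large R C) : R ^ 61 < 2 ^ R :=
  lt_of_le_of_lt (up h.hR (by norm_num)) h.hpow

theorem card0 {R C : ℕ} (h : Large R C) :
    (bad R (fun k l _ _ => l = 0 ∧ 3 ≤ k)).card ≤ R ^ 58 := by
  have hR := h.hR
  have h1 : (bad R (fun k l _ _ => l = 0 ∧ 3 ≤ k)).card ≤
      (range (R + 1) ×ˢ range (2 * R ^ 40 + 1)).card := by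
    refine count_le _ _ (fun n c => Sol c.1 0 c.2 2 n) ?_ ?_
    · intro n hn
      obtain ⟨hnR, k, l, a, b, ⟨rfl, hk3⟩, hk, hl, ha, hb, N, hN, hNn, e⟩ := mem_bad.mp hn
      refine ⟨(k, a), ?_, N, hN, hNn, ?_⟩
      · have := type0 hR hN (by omega) hk ha (by omega) e
        simp only [Finset.mem_product, Finset.mem_range]
        omega
      · unfold Eq2 at e ⊢
        simpa using e
    · intro c _ n n' h1 h2
      exact h1.unique h2
  rw [Finset.card_product, Finset.card_range, Finset.card_range] at h1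
  refine h1.trans ?_
  have h2 : 1 ≤ R ^ 40 := Nat.one_le_pow _ _ (by omega)
  calc (R + 1) * (2 * R ^ 40 + 1) ≤ (2 * R) * (3 * R ^ 40) :=
        Nat.mul_le_mul (by omega) (by omega)
    _ = 6 * R ^ 41 := by ring
    _ ≤ R * R ^ 41 := Nat.mul_le_mul_right _ (by omega)
    _ = R ^ 42 := by ring
    _ ≤ R ^ 58 := up hR (by norm_num)

theorem card31 {R C : ℕ} (h : Large R C) :
    (bad R (fun k l _ _ => l = 1 ∧ 3 ≤ k)).card ≤ R ^ 58 := by
  have hR := h.hR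
  have h1 : (bad R (fun k l _ _ => l = 1 ∧ 3 ≤ k)).card ≤
      ((range (R + 1) ×ˢ range (2 * R ^ 40 + 1)).sigma (fun c =>
        if (c.2 ^ (2 * c.1) + c.1 * c.2 - (c.2 ^ c.1 + c.1 * c.2 ^ 2) ≤ 9 * R ^ 240) then
        (c.2 ^ (2 * c.1) + c.1 * c.2 - (c.2 ^ c.1 + c.1 * c.2 ^ 2)).divisors else ∅)).card := by
    refine count_le _ _ (fun n c => n + c.2 + c.1.1 * c.1.2 = c.1.2 ^ c.1.1 + c.1.1 + 1) ?_ ?_
    · intro n hn
      obtain ⟨hnR, k, l, a, b, ⟨rfl, hk3⟩, hk, hl, ha, hb, N, hN, hNn, e⟩ := mem_bad.mp hn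
      obtain ⟨D, hD0, hD, -, -, hdvd, hpos⟩ := type1 hN ha hb (by omega) e
      obtain ⟨h2, h3⟩ := type31 hR hN (by omega) hk ha hb hk3 e
      refine ⟨⟨(k, a), D⟩, ?_, ?_⟩
      · rw [Finset.mem_sigma]
        have haa : k * a ≤ k * a ^ 2 := Nat.mul_le_mul_left k (Nat.le_self_pow (by norm_num) a)
        have hle : a ^ (2 * k) + k * a - (a ^ k + k * a ^ 2) ≤ 9 * R ^ 240 := by omega
        simp only [Finset.mem_product, Finset.mem_range, if_pos hle, Nat.mem_divisors]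
        exact ⟨⟨by omega, by omega⟩, hdvd, by omega⟩
      · simp only
        omega
    · intro c _ n n' h1 h2
      omega
  refine h1.trans ?_
  rw [Finset.card_sigma]
  have h2 : ∀ c ∈ range (R + 1) ×ˢ range (2 * R ^ 40 + 1),
      (if (c.2 ^ (2 * c.1) + c.1 * c.2 - (c.2 ^ c.1 + c.1 * c.2 ^ 2) ≤ 9 * R ^ 240) then
        (c.2 ^ (2 * c.1) + c.1 * c.2 - (c.2 ^ c.1 + c.1 * c.2 ^ 2)).divisors else ∅).card ≤
        9 * C * R := by
    intro c _
    split_ifs with hc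
    · rcases Nat.eq_zero_or_pos (c.2 ^ (2 * c.1) + c.1 * c.2 - (c.2 ^ c.1 + c.1 * c.2 ^ 2))
        with h0 | h0
      · rw [h0]; simp
      · exact h.tau (by omega) hc
    · simp
  refine (Finset.sum_le_card_nsmul _ _ _ h2).trans ?_
  rw [Finset.card_product, Finset.card_range, Finset.card_range, smul_eq_mul]
  have h3 : 1 ≤ R ^ 40 := Nat.one_le_pow _ _ (by omega)
  have hCR := h.hCR
  calc (R + 1) * (2 * R ^ 40 + 1) * (9 * C * R) ≤ (2 * R) * (3 * R ^ 40) * (9 * C * R) :=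
        Nat.mul_le_mul_right _ (Nat.mul_le_mul (by omega) (by omega))
    _ = (54 * C) * R ^ 42 := by ring
    _ ≤ R * R ^ 42 := Nat.mul_le_mul_right _ (by omega)
    _ = R ^ 43 := by ring
    _ ≤ R ^ 58 := up hR (by norm_num)

theorem card21s {R C : ℕ} (h : Large R C) :
    (bad R (fun k l a _ => l = 1 ∧ k = 2 ∧ a ≤ R ^ 48)).card ≤ R ^ 58 := by
  have hR := h.hR
  have h1 : (bad R (fun k l a _ => l = 1 ∧ k = 2 ∧ a ≤ R ^ 48)).card ≤
      ((range (R ^ 48 + 1)).sigma (fun a =>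
        (a ^ (2 * 2) + 2 * a - (a ^ 2 + 2 * a ^ 2)).divisors)).card := by
    refine count_le _ _ (fun n c => n + c.2 + 2 * c.1 = c.1 ^ 2 + 2 + 1) ?_ ?_
    · intro n hn
      obtain ⟨hnR, k, l, a, b, ⟨rfl, rfl, haR⟩, hk, hl, ha, hb, N, hN, hNn, e⟩ := mem_bad.mp hn
      obtain ⟨D, hD0, hD, -, -, hdvd, hpos⟩ := type1 hN ha hb (by omega) e
      refine ⟨⟨a, D⟩, ?_, ?_⟩
      · rw [Finset.mem_sigma]
        simp only [Finset.mem_range, Nat.mem_divisors]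
        exact ⟨by omega, hdvd, by omega⟩
      · simp only
        omega
    · intro c _ n n' h1 h2
      omega
  refine h1.trans ?_
  rw [Finset.card_sigma]
  have h2 : ∀ a ∈ range (R ^ 48 + 1),
      (a ^ (2 * 2) + 2 * a - (a ^ 2 + 2 * a ^ 2)).divisors.card ≤ 9 * C * R := by
    intro a ha
    rw [Finset.mem_range] at ha
    rcases Nat.eq_zero_or_pos (a ^ (2 * 2) + 2 * a - (a ^ 2 + 2 * a ^ 2)) with h0 | h0
    · rw [h0]; simp
    · refine h.tau (by omega) ?_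
      have ha1 : a ^ (2 * 2) ≤ (R ^ 48) ^ 4 := Nat.pow_le_pow_left (by omega) 4
      have ha2 : (R ^ 48) ^ 4 = R ^ 192 := by ring
      have ha3 : R ^ 192 ≤ R ^ 240 := up hR (by norm_num)
      have ha4 : a ≤ a ^ 2 := Nat.le_self_pow (by norm_num) a
      omega
  refine (Finset.sum_le_card_nsmul _ _ _ h2).trans ?_
  rw [Finset.card_range, smul_eq_mul]
  have h3 : 1 ≤ R ^ 48 := Nat.one_le_pow _ _ (by omega)
  have hCR := h.hCR
  calc (R ^ 48 + 1) * (9 * C * R) ≤ (2 * R ^ 48) * (9 * C * R) :=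
        Nat.mul_le_mul_right _ (by omega)
    _ = (18 * C) * R ^ 49 := by ring
    _ ≤ R * R ^ 49 := Nat.mul_le_mul_right _ (by omega)
    _ = R ^ 50 := by ring
    _ ≤ R ^ 58 := up hR (by norm_num)

theorem card21l {R C : ℕ} (h : Large R C) :
    (bad R (fun k l a _ => l = 1 ∧ k = 2 ∧ R ^ 48 < a)).card ≤ R ^ 58 := by
  have hR := h.hR
  have h1 : (bad R (fun k l a _ => l = 1 ∧ k = 2 ∧ R ^ 48 < a)).card ≤
      ((Finset.Icc 2 (4 * R ^ 24)).sigma (fun b =>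
        conicSet (8 * (b + 1)) ((2 * b - 1) ^ 2) R)).card := by
    refine count_le _ _ (fun n c => Sol 2 1 c.2 c.1 n) ?_ ?_
    · intro n hn
      obtain ⟨hnR, k, l, a, b, ⟨rfl, rfl, haR⟩, hk, hl, ha, hb, N, hN, hNn, e⟩ := mem_bad.mp hn
      obtain ⟨ha3, hb4, hconic⟩ := type21 hR hN (by omega) haR hb e
      refine ⟨⟨b, a⟩, ?_, N, hN, hNn, e⟩
      rw [Finset.mem_sigma]
      refine ⟨by simp only [Finset.mem_Icc]; omega, ?_⟩
      unfold conicSet
      simp only [Finset.mem_filter, Finset.mem_range]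
      refine ⟨?_, by omega, _, hconic⟩
      have h2 : 3 * R ^ 60 ≤ R ^ 61 := by
        calc 3 * R ^ 60 ≤ R * R ^ 60 := Nat.mul_le_mul_right _ (by omega)
          _ = R ^ 61 := by ring
      have := h.pow61
      omega
    · intro c _ n n' h1 h2
      exact h1.unique h2
  refine h1.trans ?_
  rw [Finset.card_sigma]
  have h24 : 1 ≤ R ^ 24 := Nat.one_le_pow _ _ (by omega)
  have h2 : ∀ b ∈ Finset.Icc 2 (4 * R ^ 24),
      (conicSet (8 * (b + 1)) ((2 * b - 1) ^ 2) R).card ≤ R * (2 * (8 * R ^ 24)) := by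
    intro b hb
    rw [Finset.mem_Icc] at hb
    refine conicSet_card (by omega) ?_ (by omega) ?_
    · have hb1 : 3 ≤ 2 * b - 1 := by omega
      have hb2 : 3 ^ 2 ≤ (2 * b - 1) ^ 2 := Nat.pow_le_pow_left hb1 2
      nlinarith
    · have e1 : (2 * b - 1) ^ 2 ≤ (2 * b) ^ 2 := Nat.pow_le_pow_left (by omega) 2
      have e2 : ((2 * b - 1) ^ 2) ^ 2 ≤ ((2 * b) ^ 2) ^ 2 := Nat.pow_le_pow_left e1 2
      have e3 : (2 * b) ^ 4 ≤ (8 * R ^ 24) ^ 4 := Nat.pow_le_pow_left (by omega) 4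
      calc 4 * ((2 * b - 1) ^ 2) ^ 2 ≤ 4 * ((2 * b) ^ 2) ^ 2 := Nat.mul_le_mul_left _ e2
        _ = (2 * b) ^ 4 * 4 := by ring
        _ ≤ (8 * R ^ 24) ^ 4 * (8 * (b + 1)) := Nat.mul_le_mul e3 (by omega)
  refine (Finset.sum_le_card_nsmul _ _ _ h2).trans ?_
  rw [Nat.card_Icc, smul_eq_mul]
  calc (4 * R ^ 24 + 1 - 2) * (R * (2 * (8 * R ^ 24))) ≤ (4 * R ^ 24) * (R * (2 * (8 * R ^ 24))) :=
        Nat.mul_le_mul_right _ (by omega)
    _ = 64 * R ^ 49 := by ring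
    _ ≤ R * R ^ 49 := Nat.mul_le_mul_right _ (by omega)
    _ = R ^ 50 := by ring
    _ ≤ R ^ 58 := up hR (by norm_num)

theorem conic_two {R N k a b : ℕ} (hN : 1 ≤ N) (hb : 1 ≤ b) (hbR : b < 2 ^ R)
    (e : Eq2 N k 2 a b) : b ∈ conicSet (8 * (a ^ k + 1)) (4 * k * (a ^ 2 - a) + 1) R := by
  unfold conicSet
  simp only [Finset.mem_filter, Finset.mem_range]
  rcases eq_two e with h | h
  · exact ⟨hbR, hb, _, h⟩
  · omega

theorem card32s {R C : ℕ} (h : Large R C) :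
    (bad R (fun k l a _ => l = 2 ∧ 3 ≤ k ∧ a ≤ R ^ 30)).card ≤ R ^ 58 := by
  have hR := h.hR
  have h1 : (bad R (fun k l a _ => l = 2 ∧ 3 ≤ k ∧ a ≤ R ^ 30)).card ≤
      ((Finset.Icc 3 R ×ˢ Finset.Icc 2 (R ^ 30)).sigma (fun c =>
        conicSet (8 * (c.2 ^ c.1 + 1)) (4 * c.1 * (c.2 ^ 2 - c.2) + 1) R)).card := by
    refine count_le _ _ (fun n c => Sol c.1.1 2 c.1.2 c.2 n) ?_ ?_
    · intro n hn
      obtain ⟨hnR, k, l, a, b, ⟨rfl, hk3, haR⟩, hk, hl, ha, hb, N, hN, hNn, e⟩ := mem_bad.mp hn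
      have hab := type32 hR (by omega) hk ha hb hk3 e
      refine ⟨⟨(k, a), b⟩, ?_, N, hN, hNn, e⟩
      rw [Finset.mem_sigma]
      refine ⟨by simp only [Finset.mem_product, Finset.mem_Icc]; omega, ?_⟩
      show b ∈ conicSet (8 * (a ^ k + 1)) (4 * k * (a ^ 2 - a) + 1) R
      refine conic_two hN (by omega) ?_ e
      have h3 : 8 ≤ a ^ k := by
        calc 8 = 2 ^ 3 := by norm_num
          _ ≤ a ^ 3 := Nat.pow_le_pow_left ha 3
          _ ≤ a ^ k := Nat.pow_le_pow_right (by omega) hk3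
      have h4 : 8 * b ^ 2 ≤ 8 * R ^ 120 := (Nat.mul_le_mul_right _ h3).trans hab
      have h5 : b ≤ 1 * R ^ 60 := root2 (m := 60) (by norm_num; omega)
      have h6 : R ^ 60 ≤ R ^ 61 := up hR (by norm_num)
      have := h.pow61
      omega
    · intro c _ n n' h1 h2
      exact h1.unique h2
  refine h1.trans ?_
  rw [Finset.card_sigma]
  have h8 : 1 ≤ R ^ 8 := Nat.one_le_pow _ _ (by omega)
  have h2 : ∀ c ∈ Finset.Icc 3 R ×ˢ Finset.Icc 2 (R ^ 30),
      (conicSet (8 * (c.2 ^ c.1 + 1)) (4 * c.1 * (c.2 ^ 2 - c.2) + 1) R).card ≤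
        R * (2 * (2 * R ^ 8)) := by
    rintro ⟨k, a⟩ hc
    simp only [Finset.mem_product, Finset.mem_Icc] at hc ⊢
    obtain ⟨⟨hk3, hk⟩, ha, haR⟩ := hc
    have h3 : a ^ 3 ≤ a ^ k := Nat.pow_le_pow_right (by omega) hk3
    refine conicSet_card (by omega) ?_ (by omega) ?_
    · have h4 : 2 ^ 3 ≤ a ^ 3 := Nat.pow_le_pow_left ha 3
      exact lt_of_lt_of_le (show 16 < 72 * 1 by norm_num) (Nat.mul_le_mul (by omega) (by omega))
    · have hc : 4 * k * (a ^ 2 - a) + 1 ≤ 4 * R * a ^ 2 := by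
        have h5 : a ^ 2 - a + 1 ≤ a ^ 2 := by
          have : a < a ^ 2 := by nlinarith
          omega
        calc 4 * k * (a ^ 2 - a) + 1 ≤ 4 * R * (a ^ 2 - a) + 4 * R * 1 := by
              have : 4 * k * (a ^ 2 - a) ≤ 4 * R * (a ^ 2 - a) :=
                Nat.mul_le_mul_right _ (by omega)
              omega
          _ = 4 * R * (a ^ 2 - a + 1) := by ring
          _ ≤ 4 * R * a ^ 2 := Nat.mul_le_mul_left _ h5
      have hc2 : (4 * k * (a ^ 2 - a) + 1) ^ 2 ≤ (4 * R * a ^ 2) ^ 2 := Nat.pow_le_pow_left hc 2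
      calc 4 * (4 * k * (a ^ 2 - a) + 1) ^ 2 ≤ 4 * (4 * R * a ^ 2) ^ 2 :=
            Nat.mul_le_mul_left _ hc2
        _ = 8 * (8 * R ^ 2 * a) * a ^ 3 := by ring
        _ ≤ 8 * (8 * R ^ 2 * R ^ 30) * a ^ k := by
            apply Nat.mul_le_mul _ h3
            apply Nat.mul_le_mul_left
            exact Nat.mul_le_mul_left _ haR
        _ ≤ 8 * (16 * R ^ 32) * a ^ k := by
            apply Nat.mul_le_mul_right
            apply Nat.mul_le_mul_left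
            have : R ^ 32 = R ^ 2 * R ^ 30 := by ring
            rw [this]
            nlinarith
        _ = (2 * R ^ 8) ^ 4 * (8 * a ^ k) := by ring
        _ ≤ (2 * R ^ 8) ^ 4 * (8 * (a ^ k + 1)) := Nat.mul_le_mul_left _ (by omega)
  refine (Finset.sum_le_card_nsmul _ _ _ h2).trans ?_
  rw [Finset.card_product, Nat.card_Icc, Nat.card_Icc, smul_eq_mul]
  calc (R + 1 - 3) * (R ^ 30 + 1 - 2) * (R * (2 * (2 * R ^ 8))) ≤
        R * R ^ 30 * (R * (2 * (2 * R ^ 8))) :=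
        Nat.mul_le_mul_right _ (Nat.mul_le_mul (by omega) (by omega))
    _ = 4 * R ^ 40 := by ring
    _ ≤ R * R ^ 40 := Nat.mul_le_mul_right _ (by omega)
    _ = R ^ 41 := by ring
    _ ≤ R ^ 58 := up hR (by norm_num)

theorem card32l {R C : ℕ} (h : Large R C) :
    (bad R (fun k l a _ => l = 2 ∧ 3 ≤ k ∧ R ^ 30 < a)).card ≤ R ^ 58 := by
  have hR := h.hR
  have h1 : (bad R (fun k l a _ => l = 2 ∧ 3 ≤ k ∧ R ^ 30 < a)).card ≤
      (range (R + 1) ×ˢ range (2 * R ^ 40 + 1) ×ˢ range (3 * R ^ 15 + 1)).card := by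
    refine count_le _ _ (fun n c => Sol c.1 2 c.2.1 c.2.2 n) ?_ ?_
    · intro n hn
      obtain ⟨hnR, k, l, a, b, ⟨rfl, hk3, haR⟩, hk, hl, ha, hb, N, hN, hNn, e⟩ := mem_bad.mp hn
      have hab := type32 hR (by omega) hk ha hb hk3 e
      refine ⟨(k, a, b), ?_, N, hN, hNn, e⟩
      have h3 : a ^ 3 ≤ a ^ k := Nat.pow_le_pow_right (by omega) hk3
      have h4 : a ^ 3 * b ^ 2 ≤ 8 * R ^ 120 := (Nat.mul_le_mul_right _ h3).trans hab
      have h5 : a ^ 3 ≤ 8 * R ^ 120 := by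
        have : 0 < b ^ 2 := Nat.one_le_pow _ _ (by omega)
        exact le_trans (Nat.le_mul_of_pos_right _ this) h4
      have ha40 := root3 h5
      have h6 : R ^ 90 * b ^ 2 ≤ R ^ 90 * (8 * R ^ 30) := by
        calc R ^ 90 * b ^ 2 = (R ^ 30) ^ 3 * b ^ 2 := by ring
          _ ≤ a ^ 3 * b ^ 2 := Nat.mul_le_mul_right _ (Nat.pow_le_pow_left haR.le 3)
          _ ≤ 8 * R ^ 120 := h4
          _ = R ^ 90 * (8 * R ^ 30) := by ring
      have h7 : b ^ 2 ≤ 8 * R ^ 30 := Nat.le_of_mul_le_mul_left h6 (by positivity)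
      have h8 : b ≤ 3 * R ^ 15 := root2 (m := 15) (by norm_num; omega)
      simp only [Finset.mem_product, Finset.mem_range]
      omega
    · intro c _ n n' h1 h2
      exact h1.unique h2
  refine h1.trans ?_
  rw [Finset.card_product, Finset.card_product, Finset.card_range, Finset.card_range,
    Finset.card_range]
  have h40 : 1 ≤ R ^ 40 := Nat.one_le_pow _ _ (by omega)
  have h15 : 1 ≤ R ^ 15 := Nat.one_le_pow _ _ (by omega)
  calc (R + 1) * ((2 * R ^ 40 + 1) * (3 * R ^ 15 + 1)) ≤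
        (2 * R) * ((3 * R ^ 40) * (4 * R ^ 15)) :=
        Nat.mul_le_mul (by omega) (Nat.mul_le_mul (by omega) (by omega))
    _ = 24 * R ^ 56 := by ring
    _ ≤ R * R ^ 56 := Nat.mul_le_mul_right _ (by omega)
    _ = R ^ 57 := by ring
    _ ≤ R ^ 58 := up hR (by norm_num)

theorem card22 {R C : ℕ} (h : Large R C) :
    (bad R (fun k l a b => l = 2 ∧ k = 2 ∧ a ≤ b)).card ≤ R ^ 58 := by
  have hR := h.hR
  have h1 : (bad R (fun k l a b => l = 2 ∧ k = 2 ∧ a ≤ b)).card ≤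
      ((Finset.Icc 2 (3 * R ^ 30)).sigma (fun a =>
        conicSet (8 * (a ^ 2 + 1)) (4 * 2 * (a ^ 2 - a) + 1) R)).card := by
    refine count_le _ _ (fun n c => Sol 2 2 c.1 c.2 n) ?_ ?_
    · intro n hn
      obtain ⟨hnR, k, l, a, b, ⟨rfl, rfl, hab⟩, hk, hl, ha, hb, N, hN, hNn, e⟩ := mem_bad.mp hn
      have hab5 := type22 hR (by omega) ha hab e
      refine ⟨⟨a, b⟩, ?_, N, hN, hNn, e⟩
      rw [Finset.mem_sigma]
      have h2 : a ^ 2 ≤ a * b := by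
        rw [pow_two]
        exact Nat.mul_le_mul_left a hab
      have h3 : a ≤ 3 * R ^ 30 := root2 (m := 30) (by norm_num; omega)
      refine ⟨by simp only [Finset.mem_Icc]; omega, ?_⟩
      show b ∈ conicSet (8 * (a ^ 2 + 1)) (4 * 2 * (a ^ 2 - a) + 1) R
      refine conic_two hN (by omega) ?_ e
      have h4 : 2 * b ≤ a * b := Nat.mul_le_mul_right _ ha
      have h6 : 5 * R ^ 60 ≤ R ^ 61 := by
        calc 5 * R ^ 60 ≤ R * R ^ 60 := Nat.mul_le_mul_right _ (by omega)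
          _ = R ^ 61 := by ring
      have := h.pow61
      omega
    · intro c _ n n' h1 h2
      exact h1.unique h2
  refine h1.trans ?_
  rw [Finset.card_sigma]
  have h15 : 1 ≤ R ^ 15 := Nat.one_le_pow _ _ (by omega)
  have h2 : ∀ a ∈ Finset.Icc 2 (3 * R ^ 30),
      (conicSet (8 * (a ^ 2 + 1)) (4 * 2 * (a ^ 2 - a) + 1) R).card ≤
        R * (2 * (5 * R ^ 15)) := by
    intro a ha
    simp only [Finset.mem_Icc] at ha
    refine conicSet_card (by omega) ?_ (by omega) ?_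
    · have h4 : 2 ^ 2 ≤ a ^ 2 := Nat.pow_le_pow_left ha.1 2
      exact lt_of_lt_of_le (show 16 < 40 * 1 by norm_num) (Nat.mul_le_mul (by omega) (by omega))
    · have hc : 4 * 2 * (a ^ 2 - a) + 1 ≤ 8 * a ^ 2 := by
        have : a ≤ a ^ 2 := Nat.le_self_pow (by norm_num) a
        omega
      have hc2 : (4 * 2 * (a ^ 2 - a) + 1) ^ 2 ≤ (8 * a ^ 2) ^ 2 := Nat.pow_le_pow_left hc 2
      have ha2 : a ^ 2 ≤ (3 * R ^ 30) ^ 2 := Nat.pow_le_pow_left ha.2 2
      calc 4 * (4 * 2 * (a ^ 2 - a) + 1) ^ 2 ≤ 4 * (8 * a ^ 2) ^ 2 :=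
            Nat.mul_le_mul_left _ hc2
        _ = a ^ 2 * (32 * (8 * a ^ 2)) := by ring
        _ ≤ (3 * R ^ 30) ^ 2 * (32 * (8 * a ^ 2)) := Nat.mul_le_mul_right _ ha2
        _ = (288 * R ^ 60) * (8 * a ^ 2) := by ring
        _ ≤ (625 * R ^ 60) * (8 * (a ^ 2 + 1)) := Nat.mul_le_mul (by omega) (by omega)
        _ = (5 * R ^ 15) ^ 4 * (8 * (a ^ 2 + 1)) := by ring
  refine (Finset.sum_le_card_nsmul _ _ _ h2).trans ?_
  rw [Nat.card_Icc, smul_eq_mul]
  calc (3 * R ^ 30 + 1 - 2) * (R * (2 * (5 * R ^ 15))) ≤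
        (3 * R ^ 30) * (R * (2 * (5 * R ^ 15))) :=
        Nat.mul_le_mul_right _ (by omega)
    _ = 30 * R ^ 46 := by ring
    _ ≤ R * R ^ 46 := Nat.mul_le_mul_right _ (by omega)
    _ = R ^ 47 := by ring
    _ ≤ R ^ 58 := up hR (by norm_num)

theorem card33 {R C : ℕ} (h : Large R C) :
    (bad R (fun k l _ _ => 3 ≤ l ∧ 3 ≤ k)).card ≤ R ^ 58 := by
  have hR := h.hR
  have h1 : (bad R (fun k l _ _ => 3 ≤ l ∧ 3 ≤ k)).card ≤
      ((range (R + 1) ×ˢ range (R + 1)) ×ˢ ((Finset.Icc 1 (2 * R ^ 40)).sigma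
        (fun m => m.divisors))).card := by
    refine count_le _ _ (fun n c => Sol c.1.1 c.1.2 c.2.2 (c.2.1 / c.2.2) n) ?_ ?_
    · intro n hn
      obtain ⟨hnR, k, l, a, b, ⟨hl3, hk3⟩, hk, hl, ha, hb, N, hN, hNn, e⟩ := mem_bad.mp hn
      have hab := type33 hR (by omega) hk hl ha hb hk3 hl3 e
      have hpos : 0 < a * b := by positivity
      refine ⟨((k, l), ⟨a * b, a⟩), ?_, N, hN, hNn, ?_⟩
      · simp only [Finset.mem_product, Finset.mem_range, Finset.mem_sigma, Finset.mem_Icc,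
          Nat.mem_divisors]
        exact ⟨⟨by omega, by omega⟩, ⟨by omega, hab⟩, dvd_mul_right a b, by omega⟩
      · simp only
        rw [Nat.mul_div_cancel_left b (by omega)]
        exact e
    · intro c _ n n' h1 h2
      exact h1.unique h2
  refine h1.trans ?_
  rw [Finset.card_product, Finset.card_product, Finset.card_range, Finset.card_sigma]
  have h2 : ∀ m ∈ Finset.Icc 1 (2 * R ^ 40), m.divisors.card ≤ 9 * C * R := by
    intro m hm
    rw [Finset.mem_Icc] at hm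
    refine h.tau (by omega) ?_
    have : R ^ 40 ≤ R ^ 240 := up hR (by norm_num)
    omega
  have h3 := Finset.sum_le_card_nsmul _ _ _ h2
  rw [Nat.card_Icc, smul_eq_mul, Nat.add_sub_cancel] at h3
  have hCR := h.hCR
  calc (R + 1) * (R + 1) * ∑ m ∈ Finset.Icc 1 (2 * R ^ 40), m.divisors.card ≤
        (2 * R) * (2 * R) * (2 * R ^ 40 * (9 * C * R)) :=
        Nat.mul_le_mul (Nat.mul_le_mul (by omega) (by omega)) h3
    _ = (72 * C) * R ^ 43 := by ring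
    _ ≤ R * R ^ 43 := Nat.mul_le_mul_right _ (by omega)
    _ = R ^ 44 := by ring
    _ ≤ R ^ 58 := up hR (by norm_num)

/-- all `n ≤ R ^ 60` with a solution of the equation -/
noncomputable def allBad (R : ℕ) : Finset ℕ := bad R (fun k l _ _ => 3 ≤ k + l)

theorem allBad_sub {R : ℕ} : allBad R ⊆
    (bad R (fun k l _ _ => l = 0 ∧ 3 ≤ k) ∪ bad R (fun k l _ _ => l = 1 ∧ 3 ≤ k)) ∪
    ((bad R (fun k l a _ => l = 1 ∧ k = 2 ∧ a ≤ R ^ 48) ∪
      bad R (fun k l a _ => l = 1 ∧ k = 2 ∧ R ^ 48 < a)) ∪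
    ((bad R (fun k l a _ => l = 2 ∧ 3 ≤ k ∧ a ≤ R ^ 30) ∪
      bad R (fun k l a _ => l = 2 ∧ 3 ≤ k ∧ R ^ 30 < a)) ∪
    (bad R (fun k l a b => l = 2 ∧ k = 2 ∧ a ≤ b) ∪ bad R (fun k l _ _ => 3 ≤ l ∧ 3 ≤ k)))) := by
  intro n hn
  obtain ⟨hnR, k, l, a, b, hkl, hk, hl, ha, hb, hsol⟩ := mem_bad.mp hn
  -- we may assume `l ≤ k`
  have key : ∀ k l a b : ℕ, l ≤ k → 3 ≤ k + l → k ≤ R → l ≤ R → 2 ≤ a → 2 ≤ b → Sol k l a b n →
      n ∈ (bad R (fun k l _ _ => l = 0 ∧ 3 ≤ k) ∪ bad R (fun k l _ _ => l = 1 ∧ 3 ≤ k)) ∪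
    ((bad R (fun k l a _ => l = 1 ∧ k = 2 ∧ a ≤ R ^ 48) ∪
      bad R (fun k l a _ => l = 1 ∧ k = 2 ∧ R ^ 48 < a)) ∪
    ((bad R (fun k l a _ => l = 2 ∧ 3 ≤ k ∧ a ≤ R ^ 30) ∪
      bad R (fun k l a _ => l = 2 ∧ 3 ≤ k ∧ R ^ 30 < a)) ∪
    (bad R (fun k l a b => l = 2 ∧ k = 2 ∧ a ≤ b) ∪
      bad R (fun k l _ _ => 3 ≤ l ∧ 3 ≤ k)))) := by
    intro k l a b hlk hkl hk hl ha hb hsol
    simp only [Finset.mem_union, mem_bad]
    rcases Nat.lt_or_ge l 1 with h0 | h0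
    · exact Or.inl (Or.inl ⟨hnR, k, l, a, b, ⟨by omega, by omega⟩, hk, hl, ha, hb, hsol⟩)
    rcases Nat.lt_or_ge l 2 with h1 | h1
    · rcases Nat.lt_or_ge k 3 with h2 | h2
      · rcases Nat.lt_or_ge (R ^ 48) a with h3 | h3
        · exact Or.inr (Or.inl (Or.inr
            ⟨hnR, k, l, a, b, ⟨by omega, by omega, h3⟩, hk, hl, ha, hb, hsol⟩))
        · exact Or.inr (Or.inl (Or.inl
            ⟨hnR, k, l, a, b, ⟨by omega, by omega, h3⟩, hk, hl, ha, hb, hsol⟩))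
      · exact Or.inl (Or.inr ⟨hnR, k, l, a, b, ⟨by omega, by omega⟩, hk, hl, ha, hb, hsol⟩)
    rcases Nat.lt_or_ge l 3 with h2 | h2
    · rcases Nat.lt_or_ge k 3 with h3 | h3
      · rcases Nat.lt_or_ge b a with h4 | h4
        · have hk2 : k = 2 := by omega
          have hl2 : l = 2 := by omega
          subst hk2
          subst hl2
          refine Or.inr (Or.inr (Or.inr (Or.inl
            ⟨hnR, 2, 2, b, a, ⟨rfl, rfl, h4.le⟩, hk, hl, hb, ha, ?_⟩)))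
          obtain ⟨N, hN, hNn, e⟩ := hsol
          exact ⟨N, hN, hNn, e.symm⟩
        · exact Or.inr (Or.inr (Or.inr (Or.inl
            ⟨hnR, k, l, a, b, ⟨by omega, by omega, h4⟩, hk, hl, ha, hb, hsol⟩)))
      · rcases Nat.lt_or_ge (R ^ 30) a with h4 | h4
        · exact Or.inr (Or.inr (Or.inl (Or.inr
            ⟨hnR, k, l, a, b, ⟨by omega, by omega, h4⟩, hk, hl, ha, hb, hsol⟩)))
        · exact Or.inr (Or.inr (Or.inl (Or.inl
            ⟨hnR, k, l, a, b, ⟨by omega, by omega, h4⟩, hk, hl, ha, hb, hsol⟩)))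
    · exact Or.inr (Or.inr (Or.inr (Or.inr
        ⟨hnR, k, l, a, b, ⟨by omega, by omega⟩, hk, hl, ha, hb, hsol⟩)))
  rcases Nat.le_total l k with h | h
  · exact key k l a b h hkl hk hl ha hb hsol
  · refine key l k b a h (by omega) hl hk hb ha ?_
    obtain ⟨N, hN, hNn, e⟩ := hsol
    exact ⟨N, hN, by omega, e.symm⟩

theorem allBad_card {R C : ℕ} (h : Large R C) : (allBad R).card ≤ 8 * R ^ 58 := by
  refine (Finset.card_le_card allBad_sub).trans ?_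
  have e1 := card0 h
  have e2 := card31 h
  have e3 := card21s h
  have e4 := card21l h
  have e5 := card32s h
  have e6 := card32l h
  have e7 := card22 h
  have e8 := card33 h
  refine (Finset.card_union_le _ _).trans ?_
  refine (Nat.add_le_add (Finset.card_union_le _ _) (Finset.card_union_le _ _)).trans ?_
  refine (Nat.add_le_add_left (Nat.add_le_add (Finset.card_union_le _ _)
    (Finset.card_union_le _ _)) _).trans ?_
  refine (Nat.add_le_add_left (Nat.add_le_add_left (Nat.add_le_add (Finset.card_union_le _ _)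
    (Finset.card_union_le _ _)) _) _).trans ?_
  omega

end Pool.Agent.Q38.S2
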